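import Mathlib

namespace Pool.Agent.Results.MP_da7216_co.Counter
open Finset Filter Topology

/-- weighted hypergraph: hyperedges `E` and weights `w` -/
structure HG (V : Type) where
  E : Finset (Finset V)
  w : Finset V → ℝ

variable {V : Type} [Fintype V] [DecidableEq V]

/-- `d_v` -/
noncomputable def deg (H : HG V) (v : V) : ℝ := ∑ e ∈ H.E.filter (v ∈ ·), H.w e

/-- `⟨f,g⟩ = ∑ f(v) g(v) / d_v` -/
noncomputable def ip (H : HG V) (f g : V → ℝ) : ℝ := ∑ v, f v * g v / deg H v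

/-- `δ_x - δ_y` -/
def dd (x y : V) : V → ℝ := Pi.single x 1 - Pi.single y 1

/-- `B_e` -/
def Bc (e : Finset V) : Set (V → ℝ) := convexHull ℝ {b | ∃ x ∈ e, ∃ y ∈ e, b = dd x y}

/-- `b ∈ argmax_{B_e} ⟨f, ·⟩` -/
def Mx (H : HG V) (f : V → ℝ) (e : Finset V) (b : V → ℝ) : Prop :=
  b ∈ Bc e ∧ ∀ b' ∈ Bc e, ip H f b' ≤ ip H f b

/-- the multivalued Laplacian -/
def Lap (H : HG V) (f : V → ℝ) : Set (V → ℝ) :=
  {h | ∃ b : Finset V → V → ℝ, (∀ e ∈ H.E, Mx H f e (b e)) ∧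
    h = ∑ e ∈ H.E, (H.w e * ip H f (b e)) • b e}

/-- `h = L^0 f`: a least-norm element of `L f` -/
def IsL0 (H : HG V) (f h : V → ℝ) : Prop :=
  h ∈ Lap H f ∧ ∀ h' ∈ Lap H f, ip H h h ≤ ip H h' h'

/-- `x ∼ y` -/
def Gr (H : HG V) : SimpleGraph V := SimpleGraph.fromRel fun x y => ∃ e ∈ H.E, x ∈ e ∧ y ∈ e

/-- path distance -/
noncomputable def dst (H : HG V) (x y : V) : ℝ := (Gr H).dist x y

/-- weighted 1-Lipschitz -/
def Lip (H : HG V) (f : V → ℝ) : Prop := ∀ x y, ip H f (dd x y) ≤ dst H x y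

/-- the values `⟨J_l f, δ_x - δ_y⟩`, `f ∈ Lip`, where `g = J_l f` means `f ∈ g + l L g` -/
def KSet (H : HG V) (l : ℝ) (x y : V) : Set ℝ :=
  {t | ∃ f g, Lip H f ∧ (∃ h ∈ Lap H g, f = g + l • h) ∧ t = ip H g (dd x y)}

/-- the values `⟨L^0 f, δ_x - δ_y⟩`, `f ∈ Lip_{x,y}` -/
def CSet (H : HG V) (x y : V) : Set ℝ :=
  {t | ∃ f h, Lip H f ∧ ip H f (dd x y) = dst H x y ∧ IsL0 H f h ∧ t = ip H h (dd x y)}

/-- `(1 - K_l(x,y)/d(x,y))/l` -/
noncomputable def kap (H : HG V) (x y : V) (l : ℝ) : ℝ :=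
  1 / l * (1 - sSup (KSet H l x y) / dst H x y)

/-- `C(x,y)` -/
noncomputable def CC (H : HG V) (x y : V) : ℝ := 1 / dst H x y * sInf (CSet H x y)

theorem ip_dd (H : HG V) (f : V → ℝ) (x y : V) :
    ip H f (dd x y) = f x / deg H x - f y / deg H y := by
  simp [ip, dd, mul_sub, sub_div, sum_sub_distrib, Pi.single_apply, ite_div]

theorem dd_mem {e : Finset V} {x y : V} (hx : x ∈ e) (hy : y ∈ e) : dd x y ∈ Bc e :=
  subset_convexHull ℝ _ ⟨x, hx, y, hy, rfl⟩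

theorem hull {e : Finset V} {b : V → ℝ} (hb : b ∈ Bc e) (c : V → ℝ) (k : ℝ)
    (h : ∀ i ∈ e, ∀ j ∈ e, c i - c j ≤ k) : ∑ v, c v * b v ≤ k := by
  refine convexHull_min (t := {b | ∑ v, c v * b v ≤ k}) ?_ ?_ hb
  · rintro _ ⟨x, hx, y, hy, rfl⟩
    simpa [dd, mul_sub, sum_sub_distrib, Pi.single_apply] using h x hx y hy
  · intro a ha b hb s t hs ht hst
    simp only [Set.mem_setOf_eq, Pi.add_apply, Pi.smul_apply, smul_eq_mul] at ha hb ⊢
    have : ∑ v, c v * (s * a v + t * b v) = s * ∑ v, c v * a v + t * ∑ v, c v * b v := by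
      rw [mul_sum, mul_sum, ← sum_add_distrib]
      exact sum_congr rfl fun v _ => by ring
    rw [this]
    calc _ ≤ s * k + t * k := by gcongr
      _ = k := by rw [← add_mul, hst, one_mul]

theorem ip_eq (H : HG V) (f b : V → ℝ) : ip H f b = ∑ v, f v / deg H v * b v :=
  sum_congr rfl fun v _ => by ring

theorem mx_of (H : HG V) (f : V → ℝ) {e : Finset V} {b : V → ℝ} (hb : b ∈ Bc e)
    (h : ∀ i ∈ e, ∀ j ∈ e, f i / deg H i - f j / deg H j ≤ ip H f b) : Mx H f e b :=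
  ⟨hb, fun b' hb' => by rw [ip_eq H f b']; exact hull hb' _ _ h⟩

theorem Mx.ge {H : HG V} {f : V → ℝ} {e : Finset V} {b : V → ℝ} (h : Mx H f e b) {i j : V}
    (hi : i ∈ e) (hj : j ∈ e) : f i / deg H i - f j / deg H j ≤ ip H f b := by
  rw [← ip_dd]; exact h.2 _ (dd_mem hi hj)

theorem sgn_mx {H : HG V} {f : V → ℝ} {e : Finset V} {b : V → ℝ} (h : Mx H f e b) (p : V)
    (s : ℝ) (hs : s = 1 ∨ s = -1) (hp : ∀ v, s * (f v / deg H v) ≤ s * (f p / deg H p)) :
    0 ≤ s * (ip H f b * b p) := by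
  have := hull h.1 (fun v => f v / deg H v - if v = p then s * ip H f b else 0) (ip H f b) ?_
  · simp only [sub_mul, sum_sub_distrib, ite_mul, zero_mul, sum_ite_eq', mem_univ, if_true] at this
    rw [← ip_eq] at this
    linarith
  · intro i hi j hj
    have a := h.ge hi hj
    have a0 := h.ge hi hi
    have b1 := hp i
    have b2 := hp j
    by_cases h1 : i = p <;> by_cases h2 : j = p <;> rcases hs with rfl | rfl <;>
      simp only [h1, h2, if_true, if_false] at * <;> linarith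

theorem maxp {H : HG V} (hw : ∀ e ∈ H.E, 0 < H.w e) {f h : V → ℝ} (hh : h ∈ Lap H f) (p : V)
    (s : ℝ) (hs : s = 1 ∨ s = -1) (hp : ∀ v, s * (f v / deg H v) ≤ s * (f p / deg H p)) :
    0 ≤ s * h p := by
  obtain ⟨b, h1, rfl⟩ := hh
  simp only [Finset.sum_apply, Pi.smul_apply, smul_eq_mul, mul_sum]
  refine sum_nonneg fun e he => ?_
  have := mul_nonneg (hw e he).le (sgn_mx (h1 e he) p s hs hp)
  linarith

theorem bdd {H : HG V} (hw : ∀ e ∈ H.E, 0 < H.w e) {l : ℝ} (hl : 0 < l) (x y : V) :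
    BddAbove (KSet H l x y) := by
  refine ⟨∑ p, ∑ q, dst H p q, ?_⟩
  rintro _ ⟨f, g, hf, ⟨h, hh, rfl⟩, rfl⟩
  obtain ⟨p, -, hp⟩ := exists_max_image univ (fun v => g v / deg H v) ⟨x, mem_univ x⟩
  obtain ⟨q, -, hq⟩ := exists_min_image univ (fun v => g v / deg H v) ⟨x, mem_univ x⟩
  have d0 : ∀ v, 0 ≤ deg H v := fun v => sum_nonneg fun e he => (hw e (mem_filter.1 he).1).le
  have a := maxp hw hh p 1 (Or.inl rfl) fun v => by simpa using hp v (mem_univ v)
  have b := maxp hw hh q (-1) (Or.inr rfl) fun v => by simpa using hq v (mem_univ v)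
  have c := hf p q
  rw [ip_dd] at c ⊢
  simp only [Pi.add_apply, Pi.smul_apply, smul_eq_mul, add_div] at c
  have a' : 0 ≤ l * h p / deg H p := div_nonneg (mul_nonneg hl.le (by linarith)) (d0 p)
  have b' : 0 ≤ l * (-h q) / deg H q := div_nonneg (mul_nonneg hl.le (by linarith)) (d0 q)
  have e1 : dst H p q ≤ ∑ q, dst H p q :=
    single_le_sum (f := dst H p) (fun _ _ => Nat.cast_nonneg _) (mem_univ q)
  have e2 : ∑ q, dst H p q ≤ ∑ p, ∑ q, dst H p q :=
    single_le_sum (f := fun p => ∑ q, dst H p q)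
      (fun _ _ => sum_nonneg fun _ _ => Nat.cast_nonneg _) (mem_univ p)
  have := hp x (mem_univ x)
  have := hq y (mem_univ y)
  rw [mul_neg, neg_div] at b'
  linarith

theorem lip_of {H : HG V} (hc : (Gr H).Connected) {f : V → ℝ}
    (h : ∀ e ∈ H.E, ∀ i ∈ e, ∀ j ∈ e, f i / deg H i - f j / deg H j ≤ 1) : Lip H f := by
  intro x y
  obtain ⟨p, hp⟩ := hc.exists_walk_length_eq_dist x y
  rw [ip_dd, dst, ← hp]
  clear hp
  induction p with
  | nil => simp
  | cons a p ih =>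
    rw [SimpleGraph.Walk.length_cons]
    push_cast
    rcases ((SimpleGraph.fromRel_adj _ _ _).1 a).2 with ⟨e, he, h1, h2⟩ | ⟨e, he, h2, h1⟩ <;>
      linarith [h e he _ h1 _ h2]

theorem dst_one {H : HG V} {e : Finset V} (he : e ∈ H.E) {i j : V} (hi : i ∈ e) (hj : j ∈ e)
    (hij : i ≠ j) : dst H i j = 1 := by
  have : (Gr H).dist i j = 1 := SimpleGraph.dist_eq_one_iff_adj.2
    ((SimpleGraph.fromRel_adj _ _ _).2 ⟨hij, Or.inl ⟨e, he, hi, hj⟩⟩)
  simp [dst, this]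

theorem coords {e : Finset V} {b : V → ℝ} (hb : b ∈ Bc e) :
    (∀ v, v ∉ e → b v = 0) ∧ ∑ v, b v = 0 ∧ ∀ v, b v ≤ 1 ∧ -1 ≤ b v := by
  have k : ∀ v (s k : ℝ), (∀ i ∈ e, ∀ j ∈ e, (if i = v then s else 0) - (if j = v then s else 0) ≤ k) →
      s * b v ≤ k := fun v s k h => by simpa using hull hb (fun i => if i = v then s else 0) k h
  refine ⟨fun v hv => ?_, ?_, fun v => ⟨?_, ?_⟩⟩
  · have : ∀ s : ℝ, s * b v ≤ 0 := fun s => k v s 0 fun i hi j hj => by
      rw [if_neg (ne_of_mem_of_not_mem hi hv), if_neg (ne_of_mem_of_not_mem hj hv)]; simp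
    linarith [this 1, this (-1)]
  · have a := hull hb (fun _ => 1) 0 (by simp)
    have c := hull hb (fun _ => -1) 0 (by simp)
    simp at a c
    linarith
  · linarith [k v 1 1 fun i _ j _ => by split_ifs <;> norm_num]
  · linarith [k v (-1) 1 fun i _ j _ => by split_ifs <;> norm_num]

/-- the example: `x = 0, y = 1` -/
noncomputable def H0 : HG (Fin 6) where
  E := {{0, 2, 3}, {0, 1, 3}, {3, 4}, {0, 5}}
  w := fun e => if e = {0, 1, 3} then 2 else if e = {3, 4} then 21 else 1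

theorem sumE {M : Type} [AddCommMonoid M] (F : Finset (Fin 6) → M) :
    ∑ e ∈ H0.E, F e = F {0, 2, 3} + F {0, 1, 3} + F {3, 4} + F {0, 5} := by
  simp only [H0]
  rw [sum_insert (by decide), sum_insert (by decide), sum_insert (by decide), sum_singleton]
  simp only [add_assoc]

theorem w1 : H0.w {0, 2, 3} = 1 := by
  simp only [H0]; rw [if_neg (by decide), if_neg (by decide)]
theorem w2 : H0.w {0, 1, 3} = 2 := by simp [H0]
theorem w3 : H0.w {3, 4} = 21 := by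
  simp only [H0]; rw [if_neg (by decide), if_pos trivial]
theorem w4 : H0.w {0, 5} = 1 := by
  simp only [H0]; rw [if_neg (by decide), if_neg (by decide)]

theorem deg0 : deg H0 = ![4, 2, 1, 24, 21, 1] := by
  funext v
  rw [deg, sum_filter, sumE, w1, w2, w3, w4]
  fin_cases v <;> simp <;> norm_num

theorem memE {e : Finset (Fin 6)} :
    e ∈ H0.E ↔ e = {0, 2, 3} ∨ e = {0, 1, 3} ∨ e = {3, 4} ∨ e = {0, 5} := by simp [H0]

theorem hw0 : ∀ e ∈ H0.E, 0 < H0.w e := by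
  intro e he
  rcases memE.1 he with rfl | rfl | rfl | rfl <;> simp [w1, w2, w3, w4]

theorem conn : (Gr H0).Connected := by
  have a : ∀ e ∈ H0.E, ∀ i ∈ e, ∀ j ∈ e, (Gr H0).Reachable i j := fun e he i hi j hj => by
    by_cases h : i = j
    · exact h ▸ .refl _
    · exact SimpleGraph.Adj.reachable
        ((SimpleGraph.fromRel_adj _ _ _).2 ⟨h, Or.inl ⟨e, he, hi, hj⟩⟩)
  have r3 := a {0, 2, 3} (by simp [memE]) 0 (by simp) 3 (by simp)
  have : ∀ v, (Gr H0).Reachable 0 v := by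
    intro v
    fin_cases v
    · exact .refl _
    · exact a {0, 1, 3} (by simp [memE]) 0 (by simp) 1 (by simp)
    · exact a {0, 2, 3} (by simp [memE]) 0 (by simp) 2 (by simp)
    · exact r3
    · exact r3.trans (a {3, 4} (by simp [memE]) 3 (by simp) 4 (by simp))
    · exact a {0, 5} (by simp [memE]) 0 (by simp) 5 (by simp)
  exact ⟨fun u v => (this u).symm.trans (this v)⟩

theorem d01 : dst H0 0 1 = 1 :=
  dst_one (e := {0, 1, 3}) (by simp [memE]) (by simp) (by simp) (by decide)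

theorem lap_mk {f b1 b2 b3 b4 : Fin 6 → ℝ} (h1 : Mx H0 f {0, 2, 3} b1) (h2 : Mx H0 f {0, 1, 3} b2)
    (h3 : Mx H0 f {3, 4} b3) (h4 : Mx H0 f {0, 5} b4) :
    ip H0 f b1 • b1 + (2 * ip H0 f b2) • b2 + (21 * ip H0 f b3) • b3 + ip H0 f b4 • b4 ∈
      Lap H0 f := by
  refine ⟨fun e => if e = {0, 2, 3} then b1 else if e = {0, 1, 3} then b2 else
    if e = {3, 4} then b3 else b4, fun e he => ?_, ?_⟩
  · rcases memE.1 he with rfl | rfl | rfl | rfl
    · simpa using h1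
    · simpa [show ({0, 1, 3} : Finset (Fin 6)) ≠ {0, 2, 3} by decide] using h2
    · simpa [show ({3, 4} : Finset (Fin 6)) ≠ {0, 2, 3} by decide,
        show ({3, 4} : Finset (Fin 6)) ≠ {0, 1, 3} by decide] using h3
    · simpa [show ({0, 5} : Finset (Fin 6)) ≠ {0, 2, 3} by decide,
        show ({0, 5} : Finset (Fin 6)) ≠ {0, 1, 3} by decide,
        show ({0, 5} : Finset (Fin 6)) ≠ {3, 4} by decide] using h4
  · rw [sumE, w1, w2, w3, w4]
    simp [show ({0, 1, 3} : Finset (Fin 6)) ≠ {0, 2, 3} by decide,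
      show ({3, 4} : Finset (Fin 6)) ≠ {0, 2, 3} by decide,
      show ({3, 4} : Finset (Fin 6)) ≠ {0, 1, 3} by decide,
      show ({0, 5} : Finset (Fin 6)) ≠ {0, 2, 3} by decide,
      show ({0, 5} : Finset (Fin 6)) ≠ {0, 1, 3} by decide,
      show ({0, 5} : Finset (Fin 6)) ≠ {3, 4} by decide]

theorem lap_un {f h : Fin 6 → ℝ} (hh : h ∈ Lap H0 f) : ∃ b1 b2 b3 b4,
    Mx H0 f {0, 2, 3} b1 ∧ Mx H0 f {0, 1, 3} b2 ∧ Mx H0 f {3, 4} b3 ∧ Mx H0 f {0, 5} b4 ∧
    h = ip H0 f b1 • b1 + (2 * ip H0 f b2) • b2 + (21 * ip H0 f b3) • b3 + ip H0 f b4 • b4 := by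
  obtain ⟨b, h1, rfl⟩ := hh
  refine ⟨b _, b _, b _, b _, h1 _ (by simp [memE]), h1 _ (by simp [memE]), h1 _ (by simp [memE]),
    h1 _ (by simp [memE]), ?_⟩
  rw [sumE, w1, w2, w3, w4]
  simp

theorem kup {l : ℝ} (h0 : 0 < l) (h1 : l < 1 / 30) : 1 - l / 3 ∈ KSet H0 l 0 1 := by
  set g : Fin 6 → ℝ := ![4 * (1 - l / 3), 0, 1 - l / 3, 0, 21 * (-1 + 3 * l), 2 - 2 * l] with hg
  have m : ∀ (e : Finset (Fin 6)) (i j : Fin 6), i ∈ e → j ∈ e →
      (∀ a ∈ e, ∀ b ∈ e, g a / deg H0 a - g b / deg H0 b ≤ g i / deg H0 i - g j / deg H0 j) →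
      Mx H0 g e (dd i j) := fun e i j hi hj h => mx_of _ _ (dd_mem hi hj) (by rwa [ip_dd])
  have := lap_mk (f := g)
    (m _ 2 3 (by simp) (by simp) (by simp [hg, deg0]; (repeat' apply And.intro) <;> linarith))
    (m _ 0 3 (by simp) (by simp) (by simp [hg, deg0]; (repeat' apply And.intro) <;> linarith))
    (m _ 3 4 (by simp) (by simp) (by simp [hg, deg0]; (repeat' apply And.intro) <;> linarith))
    (m _ 5 0 (by simp) (by simp) (by simp [hg, deg0]; (repeat' apply And.intro) <;> linarith))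
  refine ⟨_, g, lip_of conn ?_, ⟨_, this, rfl⟩, by simp [ip_dd, hg, deg0]⟩
  simp only [ip_dd]
  have h2 : l * l ≤ l / 30 := by nlinarith
  have h3 : 0 ≤ l * l := by positivity
  intro e he
  rcases memE.1 he with rfl | rfl | rfl | rfl <;> simp [hg, deg0, dd] <;>
    (repeat' apply And.intro) <;> nlinarith

theorem lip_adj {f : Fin 6 → ℝ} (hf : Lip H0 f) {e : Finset (Fin 6)} (he : e ∈ H0.E) :
    ∀ i ∈ e, ∀ j ∈ e, f i / deg H0 i - f j / deg H0 j ≤ 1 := by
  intro i hi j hj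
  by_cases h : i = j
  · simp [h]
  · have := hf i j
    rwa [ip_dd, dst_one he hi hj h] at this

theorem clow {t : ℝ} (ht : t ∈ CSet H0 0 1) : 7 / 20 ≤ t := by
  obtain ⟨f, h, hf, hxy, ⟨hh, hmin⟩, rfl⟩ := ht
  obtain ⟨b1, b2, b3, b4, m1, m2, m3, m4, rfl⟩ := lap_un hh
  have a1 := lip_adj hf (e := {0, 2, 3}) (by simp [memE])
  have a2 := lip_adj hf (e := {0, 1, 3}) (by simp [memE])
  have a4 := lip_adj hf (e := {0, 5}) (by simp [memE])
  have u1 : ip H0 f b1 ≤ 1 := by rw [ip_eq]; exact hull m1.1 _ _ a1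
  have u2 : ip H0 f b2 ≤ 1 := by rw [ip_eq]; exact hull m2.1 _ _ a2
  have u4 : ip H0 f b4 ≤ 1 := by rw [ip_eq]; exact hull m4.1 _ _ a4
  have l1 := m1.ge (i := 0) (j := 0) (by simp) (by simp)
  have l4 := m4.ge (i := 0) (j := 0) (by simp) (by simp)
  have l2 := m2.ge (i := 0) (j := 1) (by simp) (by simp)
  have l3 := m1.ge (i := 0) (j := 3) (by simp) (by simp)
  rw [ip_dd, d01] at hxy
  obtain ⟨z1, s1, c1⟩ := coords m1.1
  obtain ⟨z2, s2, c2⟩ := coords m2.1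
  obtain ⟨z3, -, -⟩ := coords m3.1
  obtain ⟨z4, -, c4⟩ := coords m4.1
  have e1 := ip_eq H0 f b1
  have e2 := ip_eq H0 f b2
  have k1 := a2 0 (by simp) 3 (by simp)
  have k2 := a2 3 (by simp) 1 (by simp)
  have k3 := a1 2 (by simp) 3 (by simp)
  have k4 := a1 0 (by simp) 2 (by simp)
  simp only [Fin.sum_univ_six, z1 1 (by simp), z1 4 (by simp), z1 5 (by simp), z2 2 (by simp),
    z2 4 (by simp), z2 5 (by simp), mul_zero, add_zero] at s1 s2 e1 e2
  have D2 : ip H0 f b2 = 1 := by linarith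
  have p4 : -1 ≤ ip H0 f b4 * b4 0 := by nlinarith [c4 0]
  have p1 : -1 ≤ ip H0 f b1 * b1 0 := by nlinarith [c1 0]
  have g0 : deg H0 0 = 4 := by simp [deg0]
  have g1 : deg H0 1 = 2 := by simp [deg0]
  rw [ip_dd]
  simp only [Pi.add_apply, Pi.smul_apply, smul_eq_mul, z1 1 (by simp), z3 0 (by simp),
    z3 1 (by simp), z4 1 (by simp), D2, g0, g1]
  generalize hX : f 0 / deg H0 0 = X at *
  generalize f 1 / deg H0 1 = Y at *
  generalize hA : f 2 / deg H0 2 = A at *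
  generalize f 3 / deg H0 3 = B at *
  have q1 : 0 ≤ (X - B) * (1 - b2 0) := mul_nonneg (by linarith) (by linarith [c2 0])
  have q2 : 0 ≤ (B - Y) * (1 + b2 1) := mul_nonneg (by linarith) (by linarith [c2 1])
  have q3 : (X - B) * (1 - b2 0) + (B - Y) * (1 + b2 1) = 0 := by
    have : b2 3 = - b2 0 - b2 1 := by linarith
    rw [this] at e2
    nlinarith
  rcases (show Y ≤ B by linarith).eq_or_lt with hB | hB
  swap
  · have : 1 + b2 1 = 0 := by
      have : (B - Y) * (1 + b2 1) = 0 := by linarith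
      exact (mul_eq_zero.1 this).resolve_left (by linarith)
    linarith [c2 3]
  have r0 : b2 0 = 1 := by
    have : X - B = 1 := by linarith
    rw [this] at q1 q3
    linarith
  have D1 : ip H0 f b1 = 1 := by linarith
  have q4 : 0 ≤ (X - A) * (1 - b1 0) := mul_nonneg (by linarith) (by linarith [c1 0])
  have q5 : 0 ≤ (A - B) * (1 + b1 3) := mul_nonneg (by linarith) (by linarith [c1 3])
  have q6 : (X - A) * (1 - b1 0) + (A - B) * (1 + b1 3) = 0 := by
    have : b1 2 = - b1 0 - b1 3 := by linarith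
    rw [this] at e1
    nlinarith
  rcases (show A ≤ X by linarith).eq_or_lt with hA' | hA'
  swap
  · have : 1 - b1 0 = 0 := by
      have : (X - A) * (1 - b1 0) = 0 := by linarith
      exact (mul_eq_zero.1 this).resolve_left (by linarith)
    rw [D1]
    linarith [c2 3]
  have r3 : b1 3 = -1 := by
    have : A - B = 1 := by linarith
    rw [this] at q5 q6
    linarith
  by_contra hc
  rw [D1, r0] at hc
  have m0 : 0 ≤ b1 0 := by linarith [c1 2]
  have m5 : b1 0 < 2 / 5 := by linarith [c2 3]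
  have eb : b1 + (1 / 10 : ℝ) • dd 0 2 =
      (b1 0 + 1 / 10) • dd (0 : Fin 6) 3 + (9 / 10 - b1 0) • dd (2 : Fin 6) 3 := by
    funext v
    have : b1 2 = 1 - b1 0 := by linarith
    fin_cases v <;> simp [dd, z1, r3, this] <;> ring
  have ei : ip H0 f (b1 + (1 / 10 : ℝ) • dd 0 2) = ip H0 f b1 := by
    have := ip_dd H0 f 0 2
    rw [hX, hA, hA', sub_self, ip_eq] at this
    rw [ip_eq, ip_eq]
    simp only [Pi.add_apply, Pi.smul_apply, smul_eq_mul, mul_add, sum_add_distrib,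
      mul_left_comm _ (1 / 10 : ℝ), ← mul_sum, this, mul_zero, add_zero]
  have m1' : Mx H0 f {0, 2, 3} (b1 + (1 / 10 : ℝ) • dd 0 2) := by
    refine ⟨?_, fun b' hb' => ei ▸ m1.2 b' hb'⟩
    rw [eb]
    exact convex_convexHull ℝ _ (dd_mem (by simp) (by simp)) (dd_mem (by simp) (by simp))
      (by linarith) (by linarith) (by ring)
  have := hmin _ (lap_mk m1' m2 m3 m4)
  rw [ei, D1, D2] at this
  generalize ip H0 f b3 = T3 at *
  generalize ip H0 f b4 = T4 at *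
  simp only [ip, Fin.sum_univ_six] at this
  simp [deg0, dd, z2 2 (by simp), z3 0 (by simp), z3 2 (by simp), z4 2 (by simp), r0] at this
  generalize T4 * b4 0 = P at *
  have : b2 1 ≤ 0 := by linarith [c2 3]
  nlinarith

theorem cne : (CSet H0 0 1).Nonempty := by
  set f : Fin 6 → ℝ := ![4, 0, 3 / 4, 12, 21 / 2, 1] with hf
  have m : ∀ (e : Finset (Fin 6)) (i j : Fin 6), i ∈ e → j ∈ e →
      (∀ a ∈ e, ∀ b ∈ e, f a / deg H0 a - f b / deg H0 b ≤ f i / deg H0 i - f j / deg H0 j) →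
      Mx H0 f e (dd i j) := fun e i j hi hj h => mx_of _ _ (dd_mem hi hj) (by rwa [ip_dd])
  have h0 := lap_mk (f := f) (m _ 0 3 (by simp) (by simp) (by simp [hf, deg0]; norm_num))
    (m _ 0 1 (by simp) (by simp) (by simp [hf, deg0]; norm_num))
    (m _ 3 4 (by simp) (by simp) (by simp [hf, deg0]; norm_num))
    (m _ 5 0 (by simp) (by simp) (by simp [hf, deg0]))
  have uq : ∀ h ∈ Lap H0 f, h = ![5 / 2, -2, 0, -1 / 2, 0, 0] := by
    intro h hh
    obtain ⟨b1, b2, b3, b4, m1, m2, m3, m4, rfl⟩ := lap_un hh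
    have l1 := m1.ge (i := 0) (j := 3) (by simp) (by simp)
    have l2 := m2.ge (i := 0) (j := 1) (by simp) (by simp)
    obtain ⟨z1, s1, c1⟩ := coords m1.1
    obtain ⟨z2, s2, c2⟩ := coords m2.1
    obtain ⟨z3, s3, -⟩ := coords m3.1
    obtain ⟨z4, s4, -⟩ := coords m4.1
    have e1 := ip_eq H0 f b1
    have e2 := ip_eq H0 f b2
    have e3 := ip_eq H0 f b3
    have e4 := ip_eq H0 f b4
    simp only [Fin.sum_univ_six, z1 1 (by simp), z1 4 (by simp), z1 5 (by simp), z2 2 (by simp),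
      z2 4 (by simp), z2 5 (by simp), z3 0 (by simp), z3 1 (by simp), z3 2 (by simp),
      z3 5 (by simp), z4 1 (by simp), z4 2 (by simp), z4 3 (by simp), z4 4 (by simp), mul_zero,
      add_zero, zero_add] at s1 s2 s3 s4 e1 e2 e3 e4
    simp [hf, deg0] at e1 e2 e3 e4 l1 l2
    have D3 : ip H0 f b3 = 0 := by simp only [hf]; linarith
    have D4 : ip H0 f b4 = 0 := by simp only [hf]; linarith
    have r1 : b1 0 = 1 := by linarith [c1 0, c1 3]
    have r2 : b1 3 = -1 := by linarith [c1 0, c1 3]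
    have r3 : b1 2 = 0 := by linarith
    have r4 : b2 0 = 1 := by linarith [c2 0, c2 1]
    have r5 : b2 1 = -1 := by linarith [c2 0, c2 1]
    have r6 : b2 3 = 0 := by linarith
    have D1 : ip H0 f b1 = 1 / 2 := by simp only [hf]; linarith
    have D2 : ip H0 f b2 = 1 := by simp only [hf]; linarith
    rw [D1, D2, D3, D4]
    funext v
    fin_cases v <;> simp [r1, r2, r3, r4, r5, r6, z1, z2] <;> norm_num
  refine ⟨_, f, _, lip_of conn ?_, by rw [ip_dd, d01]; simp [hf, deg0],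
    ⟨h0, fun h' hh' => by rw [uq _ h0, uq _ hh']⟩, rfl⟩
  intro e he
  rcases memE.1 he with rfl | rfl | rfl | rfl <;> simp [hf, deg0] <;> norm_num

theorem result : ∃ (H : HG (Fin 6)) (x y : Fin 6),
    (∀ e ∈ H.E, 2 ≤ e.card ∧ 0 < H.w e) ∧ (Gr H).Connected ∧ x ≠ y ∧
    (∀ l > 0, BddAbove (KSet H l x y)) ∧ (CSet H x y).Nonempty ∧ BddBelow (CSet H x y) ∧
    (∀ l, 0 < l → l < 1 / 30 → (KSet H l x y).Nonempty ∧ kap H x y l ≤ 1 / 3) ∧
    7 / 20 ≤ CC H x y ∧
    ∀ κ, Tendsto (kap H x y) (𝓝[>] 0) (𝓝 κ) → κ < CC H x y := by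
  have k : ∀ l, 0 < l → l < 1 / 30 → (KSet H0 l 0 1).Nonempty ∧ kap H0 0 1 l ≤ 1 / 3 := by
    intro l h0 h1
    refine ⟨⟨_, kup h0 h1⟩, ?_⟩
    have := le_csSup (bdd hw0 h0 0 1) (kup h0 h1)
    rw [kap, d01, div_one, one_div, inv_mul_le_iff₀ h0]
    linarith
  have c : 7 / 20 ≤ CC H0 0 1 := by
    rw [CC, d01]
    simpa using le_csInf cne fun t ht => clow ht
  refine ⟨H0, 0, 1, fun e he => ⟨?_, hw0 e he⟩, conn, by decide, fun l hl => bdd hw0 hl 0 1, cne,
    ⟨_, fun t ht => clow ht⟩, k, c, fun κ hκ => ?_⟩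
  · rcases memE.1 he with rfl | rfl | rfl | rfl <;> decide
  · have : κ ≤ 1 / 3 := by
      refine le_of_tendsto hκ ?_
      filter_upwards [Ioo_mem_nhdsGT (show (0 : ℝ) < 1 / 30 by norm_num)] with l hl
      exact (k l hl.1 hl.2).2
    linarith

end Pool.Agent.Results.MP_da7216_co.Counter
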